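import Pool.Agent.Y269.GP.Simple

/-!
# A unital simple separable C*-algebra which is not finitely generated

Negative answer to the generator question for unital simple separable C*-algebras, in a strong
form. There is a unital simple separable C*-algebra `A` such that

* no finite subset of `A` generates `A` (together with the unit) as a C*-algebra; in particular no
  single element of `A` generates `A`;
* moreover, any `N` elements of `A` generate, together with the unit, a C*-algebra which has a
  unital `*`-homomorphism to the matrices of size `2 ^ N`; in particular every singly generated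
  unital C*-subalgebra of `A` has a two-dimensional representation, although `A`, being simple and
  not finitely generated, has no finite-dimensional representation at all.

`A` is an inductive limit of algebras of sections of endomorphism bundles over products of
projective spaces, with rank `2 ^ l` at the level `l`: the bundle of the level `l + 1` is the bundle
of the level `l` plus `2 ^ l` copies of the (complexified) tautological line bundle of a new
projective space of large dimension, and the connecting map is `a ↦ a ⊕ a(q_l)` for a suitable
(dense) sequence of points `q_l`. Given `N` elements of the level `l`, a Borsuk-Ulam theorem for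
products of spheres gives a point at which all their entries between the first `2 ^ N` basis vectors
and the others vanish; there all `N` elements preserve the span of the first `2 ^ N` basis vectors,
and so do all elements of the C*-algebra which they generate. By compactness the same holds for
`N` arbitrary elements of `A`.

The algebra, its simplicity and its separability, and the topological lemma are in
`Pool.Agent.Y269.GP`; the theorem on finite-dimensional representations is proved here.
-/

set_option autoImplicit false

namespace Pool.Agent.Results.MP_704412_an.NotFinitelyGenerated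

open Pool.Agent.Y269.GP

noncomputable section

/-- the part of an operator between the first `2 ^ N` basis vectors -/
def blk (N : ℕ) (T : HH →L[ℂ] HH) : Matrix (Fin (2 ^ N)) (Fin (2 ^ N)) ℂ :=
  fun s t => T (ee t) s

lemma pr_expand (N : ℕ) (f : HH) : PR N f = ∑ k : Fin (2 ^ N), (f k) • ee k := by
  refine lp.ext (funext fun i => ?_)
  rw [PR_apply, lp.coeFn_sum, Finset.sum_apply]
  simp only [lp.coeFn_smul, Pi.smul_apply, ee_apply, smul_eq_mul]
  by_cases hi : i < 2 ^ N
  · rw [if_pos hi, one_mul, Finset.sum_eq_single (⟨i, hi⟩ : Fin (2 ^ N))]
    · simp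
    · intro b _ hb
      rw [if_neg, mul_zero]
      intro h
      exact hb (Fin.ext h.symm)
    · intro h
      exact absurd (Finset.mem_univ _) h
  · rw [if_neg hi, zero_mul, Finset.sum_eq_zero]
    intro b _
    rw [if_neg, mul_zero]
    intro h
    exact hi (h ▸ b.2)

lemma blk_mul {N : ℕ} {S T : HH →L[ℂ] HH} (hT : T * PR N = PR N * T) :
    blk N (S * T) = blk N S * blk N T := by
  ext s t
  rw [Matrix.mul_apply]
  have h1 : T (ee t) = ∑ k : Fin (2 ^ N), (T (ee t) k) • ee k := by
    rw [← pr_expand, ← mulA, ← hT, mulA, PR_ee, if_pos t.2, one_smul]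
  show S (T (ee t)) s = ∑ k : Fin (2 ^ N), S (ee k) s * T (ee t) k
  rw [h1, map_sum, lp.coeFn_sum, Finset.sum_apply]
  refine Finset.sum_congr rfl fun k _ => ?_
  rw [map_smul, lp.coeFn_smul, Pi.smul_apply, smul_eq_mul, ← h1, mul_comm]

lemma blk_star {N : ℕ} (T : HH →L[ℂ] HH) : blk N (star T) = star (blk N T) := by
  ext s t
  show (star T) (ee t) s = star (T (ee s) t)
  rw [← inner_ee, ContinuousLinearMap.star_eq_adjoint, ContinuousLinearMap.adjoint_inner_right,
    ← inner_ee, ← inner_conj_symm]
  rfl

lemma blk_one (N : ℕ) : blk N (1 : HH →L[ℂ] HH) = 1 := by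
  ext s t
  show (ee t) s = _
  rw [ee_apply, Matrix.one_apply]
  by_cases h : s = t
  · rw [if_pos h, if_pos (by rw [h])]
  · rw [if_neg h, if_neg (fun h' => h (Fin.ext h'))]

section Ambient

variable {E : Type} [CStarAlgebra E] (M : Amb E)

/-- any `N` elements of the algebra generate a C*-algebra with a representation of dimension
`2 ^ N` -/
theorem finite_dim (N : ℕ) (x : Fin N → ↥(A0 M)) :
    Nonempty (↥(StarAlgebra.adjoin ℂ (Set.range x)).topologicalClosure →⋆ₐ[ℂ]
      Matrix (Fin (2 ^ N)) (Fin (2 ^ N)) ℂ) := by
  classical
  let x' : ℕ → ↥(A0 M) := fun j => if h : j < N then x ⟨j, h⟩ else 0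
  obtain ⟨p, hp⟩ := exists_comm_limit (N := N) (fun j => M.toC (x' j : E)) (by
    intro j ε hε
    obtain ⟨l, y, -, hl, hy⟩ := A0_approx M (x' j).2 hε
    exact ⟨l, M.toC y, hl, (norm_toC_sub_le M _ _).trans hy⟩)
  -- the commutation holds on the generated algebra
  have hcl : IsClosed {z : ↥(A0 M) | M.ev p (z : E) * PR N = PR N * M.ev p (z : E)} := by
    have h1 : Continuous fun z : ↥(A0 M) => M.ev p (z : E) :=
      (AddMonoidHomClass.continuous_of_bound (M.ev p) 1 (fun x => by
        rw [one_mul]; exact ev_norm_le M x p)).comp continuous_subtype_val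
    exact isClosed_eq (h1.mul continuous_const) (continuous_const.mul h1)
  have hsub : ((StarAlgebra.adjoin ℂ (Set.range x) : StarSubalgebra ℂ ↥(A0 M)) :
      Set ↥(A0 M)) ⊆ {z : ↥(A0 M) | M.ev p (z : E) * PR N = PR N * M.ev p (z : E)} := by
    intro z hz
    induction hz using StarAlgebra.adjoin_induction with
    | mem y hy =>
      obtain ⟨⟨j, hj⟩, rfl⟩ := hy
      have h2 := hp j hj
      simp only [x', dif_pos hj] at h2
      exact h2
    | algebraMap r =>
      show M.ev p (algebraMap ℂ E r) * PR N = PR N * M.ev p (algebraMap ℂ E r)
      rw [AlgHomClass.commutes]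
      exact Algebra.commutes r (PR N)
    | add x y _ _ hx hy =>
      have hx' : M.ev p (x : E) * PR N = PR N * M.ev p (x : E) := hx
      have hy' : M.ev p (y : E) * PR N = PR N * M.ev p (y : E) := hy
      show M.ev p ((x : E) + (y : E)) * PR N = PR N * M.ev p ((x : E) + (y : E))
      rw [map_add, add_mul, mul_add, hx', hy']
    | mul x y _ _ hx hy =>
      have hx' : M.ev p (x : E) * PR N = PR N * M.ev p (x : E) := hx
      have hy' : M.ev p (y : E) * PR N = PR N * M.ev p (y : E) := hy
      show M.ev p ((x : E) * (y : E)) * PR N = PR N * M.ev p ((x : E) * (y : E))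
      rw [map_mul, mul_assoc, hy', ← mul_assoc, hx', mul_assoc]
    | star x _ hx =>
      have h1 : M.ev p (x : E) * PR N = PR N * M.ev p (x : E) := hx
      have h2 := congrArg star h1
      rw [star_mul, star_mul, PR_star] at h2
      show M.ev p (star (x : E)) * PR N = PR N * M.ev p (star (x : E))
      rw [map_star]
      exact h2.symm
  have key : ∀ z : ↥(StarAlgebra.adjoin ℂ (Set.range x)).topologicalClosure,
      M.ev p ((z : ↥(A0 M)) : E) * PR N = PR N * M.ev p ((z : ↥(A0 M)) : E) := fun z =>
    closure_minimal hsub hcl z.2
  exact ⟨{
    toFun := fun z => blk N (M.ev p ((z : ↥(A0 M)) : E))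
    map_one' := by
      show blk N (M.ev p 1) = 1
      rw [map_one, blk_one]
    map_mul' := fun z w => by
      show blk N (M.ev p (((z : ↥(A0 M)) : E) * ((w : ↥(A0 M)) : E))) = _
      rw [map_mul, blk_mul (key w)]
    map_zero' := by
      show blk N (M.ev p 0) = 0
      rw [map_zero]
      rfl
    map_add' := fun z w => by
      show blk N (M.ev p (((z : ↥(A0 M)) : E) + ((w : ↥(A0 M)) : E))) = _
      rw [map_add]
      rfl
    commutes' := fun r => by
      show blk N (M.ev p (algebraMap ℂ E r)) = _
      rw [AlgHomClass.commutes, Algebra.algebraMap_eq_smul_one, Algebra.algebraMap_eq_smul_one,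
        ← blk_one N]
      rfl
    map_star' := fun z => by
      show blk N (M.ev p (star ((z : ↥(A0 M)) : E))) = _
      rw [map_star, blk_star] }⟩

end Ambient

/-- There is a unital simple separable C*-algebra `A` which is not generated, as a unital
C*-algebra, by any finite set, and such that any `N` elements of `A` generate a unital
C*-subalgebra with a unital `*`-homomorphism to the matrices of size `2 ^ N`. -/
theorem result : ∃ (A : Type) (_ : CStarAlgebra A),
    TopologicalSpace.SeparableSpace A ∧ IsSimpleRing A ∧
    (∀ F : Set A, F.Finite → (StarAlgebra.adjoin ℂ F).topologicalClosure ≠ ⊤) ∧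
    ∀ (N : ℕ) (x : Fin N → A),
      Nonempty (↥(StarAlgebra.adjoin ℂ (Set.range x)).topologicalClosure →⋆ₐ[ℂ]
        Matrix (Fin (2 ^ N)) (Fin (2 ^ N)) ℂ) :=
  ⟨↥(A0 amb), inferInstance, separable amb, simple amb, not_finitely_generated amb,
    finite_dim amb⟩

end

end Pool.Agent.Results.MP_704412_an.NotFinitelyGenerated
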